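import Mathlib
import Pool.Agent.Q212.KWidth3

/-!
# The `k`-width of a random sequence of intervals is asymptotically `n / (k + 1)`
-/

namespace Pool.Agent.Results.MP_46e774_pr.SequenceLimit

open MeasureTheory Filter Topology
open Pool.Agent.Q212.KWidth

/-- For every `k ≥ 1` the expected `k`-width of a sequence of `n` independent random intervals,
divided by `n`, tends to `1 / (k + 1)`. -/
theorem result : ∀ k : ℕ, 1 ≤ k →
    Tendsto (fun n : ℕ => (∫ ω, (kwd (seqRel ω) k : ℝ) ∂(model n)) / n) atTop
      (𝓝 (1 / ((k : ℝ) + 1))) :=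
  fun k _ => seq_limit k

end Pool.Agent.Results.MP_46e774_pr.SequenceLimit
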